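import Pool.Agent.Work.MP_2738db_nt_A.Interface

set_option autoImplicit false

namespace Pool.Agent.Work.MP_2738db_nt_A.helper96

open Finset NumberField

theorem log_absNorm_span (K : Type) [Field K] [NumberField K] (x : 𝓞 K) (hx : x ≠ 0) :
    Real.log (Ideal.absNorm (Ideal.span {x})) =
      ∑ v : InfinitePlace K, (v.mult : ℝ) * Real.log (v (x : K)) := by
  have h3 : (Ideal.absNorm (Ideal.span {x}) : ℝ) = ∏ v : InfinitePlace K, v (x : K) ^ v.mult := by
    rw [InfinitePlace.prod_eq_abs_norm, Ideal.absNorm_span_singleton]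
    have : (Algebra.norm ℚ (x : K)) = ((Algebra.norm ℤ x : ℤ) : ℚ) := by
      exact (Algebra.coe_norm_int x).symm
    rw [this]
    rw [Nat.cast_natAbs]
    push_cast
    rfl
  have hx' : (x : K) ≠ 0 := by simpa using hx
  rw [h3, Real.log_prod]
  · exact Finset.sum_congr rfl fun v _ => Real.log_pow _ _
  · intro v _
    exact pow_ne_zero _ (by simpa using hx')

/-- one step of the construction -/
theorem pig_step (hmin : Stmt_Min) (K : Type) [Field K] [NumberField K] (𝔠 : Ideal (𝓞 K))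
    (k T : ℕ) (y : InfinitePlace K → ℝ) (H : ℝ) (h𝔠 : 𝔠 ≠ ⊥) (hT : 1 ≤ T)
    (hD : (Module.finrank ℚ K : ℝ) ≤ H) (hH : 2 ≤ H) (hdisc : Real.log |(discr K : ℝ)| ≤ H)
    (hN : Real.log (Ideal.absNorm 𝔠) ≤ H)
    (hy : ∑ v, (v.mult : ℝ) * y v = k * Real.log (Ideal.absNorm 𝔠)) (t : ℕ) :
    ∃ (η : 𝓞 K) (𝔟 : Ideal (𝓞 K)), η ≠ 0 ∧ 𝔟 ≠ ⊥ ∧ Ideal.span {η} = 𝔠 ^ (t * k / T) * 𝔟 ∧
      (Ideal.absNorm 𝔟 : ℝ) ≤ Real.exp (2 * H ^ 3) ∧
      ∀ v : InfinitePlace K, |Real.log (v (η : K)) - t / T * y v| ≤ 3 * H ^ 2 := by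
  classical
  set D : ℝ := (Module.finrank ℚ K : ℝ) with hDdef
  have hD1 : 1 ≤ D := by
    rw [hDdef]
    exact_mod_cast Module.finrank_pos
  have hsum : ∑ v : InfinitePlace K, (v.mult : ℝ) = D := by
    rw [hDdef, ← InfinitePlace.sum_mult_eq]
    push_cast
    rfl
  have hT0 : (0 : ℝ) < T := by exact_mod_cast hT
  set j : ℕ := t * k / T with hj
  set f : ℝ := (t : ℝ) * k / T - j with hf
  have hf0 : 0 ≤ f := by
    have := Nat.cast_div_le (α := ℝ) (m := t * k) (n := T)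
    rw [hf]
    push_cast at this
    linarith
  have hf1 : f ≤ 1 := by
    have h1 : t * k < T * (j + 1) := by
      rw [hj]
      exact Nat.lt_mul_div_succ _ (by omega)
    have h2 : (t : ℝ) * k < T * (j + 1) := by exact_mod_cast h1
    have h3 : (t : ℝ) * k / T < j + 1 := by
      rw [div_lt_iff₀ hT0]
      linarith
    rw [hf]
    linarith
  set L : ℝ := Real.log (Ideal.absNorm 𝔠) with hL
  have hL0 : 0 ≤ L := Real.log_natCast_nonneg _
  have hIne : 𝔠 ^ j ≠ ⊥ := pow_ne_zero _ h𝔠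
  have hlogI : Real.log (Ideal.absNorm (𝔠 ^ j)) = j * L := by
    rw [map_pow, Nat.cast_pow, Real.log_pow]
  have hB : Real.log 4 + Real.log |(discr K : ℝ)| ≤ 2 * H := by
    have h4 : Real.log 4 ≤ 2 := by
      have : (4 : ℝ) = 2 ^ 2 := by norm_num
      rw [this, Real.log_pow]
      have := Real.log_two_lt_d9
      push_cast
      linarith
    linarith
  obtain ⟨η, hηI, hη0, hηv⟩ := hmin K (𝔠 ^ j) (fun v => (t : ℝ) / T * y v - f * L / D) (2 * H) hIne hB
    (by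
      rw [hlogI]
      have h5 : ∑ v : InfinitePlace K, (v.mult : ℝ) * ((t : ℝ) / T * y v - f * L / D) =
          (t : ℝ) / T * ∑ v : InfinitePlace K, (v.mult : ℝ) * y v -
            (f * L / D) * ∑ v : InfinitePlace K, (v.mult : ℝ) := by
        rw [Finset.mul_sum, Finset.mul_sum, ← Finset.sum_sub_distrib]
        exact Finset.sum_congr rfl fun v _ => by ring
      rw [h5, hy, hsum, hf]
      field_simp
      ring)
  have hdvd : 𝔠 ^ j ∣ Ideal.span {η} := by
    rw [Ideal.dvd_span_singleton]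
    exact hηI
  obtain ⟨𝔟, h𝔟⟩ := hdvd
  have hspan0 : Ideal.span {η} ≠ ⊥ := by simpa using hη0
  have h𝔟0 : 𝔟 ≠ ⊥ := by
    rintro rfl
    apply hspan0
    rw [h𝔟]
    simp
  have hηv' : ∀ v : InfinitePlace K, |Real.log (v (η : K)) - ((t : ℝ) / T * y v - f * L / D)|
      ≤ 2 * H ^ 2 := by
    intro v
    refine (hηv v).trans ?_
    nlinarith
  refine ⟨η, 𝔟, hη0, h𝔟0, h𝔟, ?_, ?_⟩
  · have hbpos : (0 : ℝ) < Ideal.absNorm 𝔟 := by
      have : Ideal.absNorm 𝔟 ≠ 0 := by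
        rw [Ne, Ideal.absNorm_eq_zero_iff]; exact h𝔟0
      positivity
    have hIpos : (0 : ℝ) < Ideal.absNorm (𝔠 ^ j) := by
      have : Ideal.absNorm (𝔠 ^ j) ≠ 0 := by
        rw [Ne, Ideal.absNorm_eq_zero_iff]; exact hIne
      positivity
    have h6 : Real.log (Ideal.absNorm (Ideal.span {η})) =
        Real.log (Ideal.absNorm (𝔠 ^ j)) + Real.log (Ideal.absNorm 𝔟) := by
      rw [h𝔟, map_mul, Nat.cast_mul, Real.log_mul hIpos.ne' hbpos.ne']
    rw [log_absNorm_span K η hη0] at h6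
    have h7 : ∑ v : InfinitePlace K, (v.mult : ℝ) * Real.log (v (η : K)) ≤
        ∑ v : InfinitePlace K, (v.mult : ℝ) * (((t : ℝ) / T * y v - f * L / D) + 2 * H ^ 2) := by
      refine Finset.sum_le_sum fun v _ => ?_
      refine mul_le_mul_of_nonneg_left ?_ (Nat.cast_nonneg _)
      have := (abs_le.1 (hηv' v)).2
      linarith
    have h8 : ∑ v : InfinitePlace K, (v.mult : ℝ) * (((t : ℝ) / T * y v - f * L / D) + 2 * H ^ 2) =
        (t : ℝ) / T * ∑ v : InfinitePlace K, (v.mult : ℝ) * y v -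
          (f * L / D) * ∑ v : InfinitePlace K, (v.mult : ℝ) +
          (2 * H ^ 2) * ∑ v : InfinitePlace K, (v.mult : ℝ) := by
      rw [Finset.mul_sum, Finset.mul_sum, Finset.mul_sum, ← Finset.sum_sub_distrib,
        ← Finset.sum_add_distrib]
      exact Finset.sum_congr rfl fun v _ => by ring
    rw [h8, hy, hsum] at h7
    have h9 : (t : ℝ) / T * (k * L) - f * L / D * D = j * L := by
      rw [hf]
      field_simp
      ring
    have h10 : Real.log (Ideal.absNorm 𝔟) ≤ 2 * H ^ 3 := by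
      have h11 : 2 * H ^ 2 * D ≤ 2 * H ^ 3 := by nlinarith [sq_nonneg H]
      rw [h9] at h7
      linarith
    rwa [← Real.log_le_iff_le_exp hbpos]
  · intro v
    have h12 := abs_le.1 (hηv' v)
    have h13 : 0 ≤ f * L / D := by positivity
    have h14 : f * L / D ≤ H := by
      rw [div_le_iff₀ (by linarith)]
      nlinarith
    rw [abs_le]
    constructor <;> nlinarith [h12.1, h12.2]

/-- the final step: division of two elements in the same class -/
theorem pig_div (K : Type) [Field K] [NumberField K] (𝔠 𝔟 : Ideal (𝓞 K)) (j j' : ℕ) (η η' : 𝓞 K)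
    (h𝔠 : 𝔠 ≠ ⊥) (hj : j ≤ j') (hη : η ≠ 0) (hη' : η' ≠ 0)
    (h1 : Ideal.span {η} = 𝔠 ^ j * 𝔟) (h2 : Ideal.span {η'} = 𝔠 ^ j' * 𝔟) :
    ∃ ξ : 𝓞 K, ξ ≠ 0 ∧ Ideal.span {ξ} = 𝔠 ^ (j' - j) ∧ ∀ v : InfinitePlace K,
      Real.log (v (ξ : K)) = Real.log (v (η' : K)) - Real.log (v (η : K)) := by
  have h3 : Ideal.span {η'} = 𝔠 ^ (j' - j) * Ideal.span {η} := by
    rw [h1, h2, ← mul_assoc, ← pow_add, Nat.sub_add_cancel hj]
  have h4 : η ∣ η' := by
    rw [← Ideal.span_singleton_le_span_singleton, h3]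
    exact (Ideal.mul_le_right : 𝔠 ^ (j' - j) * Ideal.span {η} ≤ Ideal.span {η})
  obtain ⟨ξ, hξ⟩ := h4
  have hξ0 : ξ ≠ 0 := by
    rintro rfl
    apply hη'
    rw [hξ, mul_zero]
  refine ⟨ξ, hξ0, ?_, ?_⟩
  · have h5 : Ideal.span {ξ} * Ideal.span {η} = 𝔠 ^ (j' - j) * Ideal.span {η} := by
      rw [← h3, hξ, Ideal.span_singleton_mul_span_singleton, mul_comm]
    have h6 : Ideal.span {η} ≠ (0 : Ideal (𝓞 K)) := by
      rw [Ideal.zero_eq_bot]
      simpa using hη
    exact mul_right_cancel₀ h6 h5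
  · intro v
    have h7 : (η' : K) = (η : K) * (ξ : K) := by
      rw [hξ]
      simp
    have h8 : (η : K) ≠ 0 := by simpa using hη
    have h9 : (ξ : K) ≠ 0 := by simpa using hξ0
    rw [h7, map_mul, Real.log_mul (by simpa using h8) (by simpa using h9)]
    ring

theorem card_places (K : Type) [Field K] [NumberField K] :
    Fintype.card (InfinitePlace K) ≤ Module.finrank ℚ K := by
  rw [← InfinitePlace.sum_mult_eq, ← Finset.card_univ, Finset.card_eq_sum_ones]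
  exact Finset.sum_le_sum fun v _ => InfinitePlace.mult_pos

theorem pig_card (n1 p D : ℕ) (r w : ℝ) (δ H : ℝ) (hδ : 0 < δ) (hδ1 : δ ≤ 1) (hH : 2 ≤ H)
    (hD : (D : ℝ) ≤ H) (hp : p ≤ D) (hn1 : (n1 : ℝ) ≤ Real.exp (2 * H ^ 3) ^ (D ^ 2 + 1))
    (hr0 : 0 ≤ r) (hr : r ≤ 2 / δ) (hw0 : 0 ≤ w) (hw : w ≤ 8 * H ^ 2 / δ) :
    (n1 : ℝ) * (r * w ^ p) ≤ Real.exp (4 * H ^ 6) * (1 / δ) ^ (2 * H) := by
  have hH6 : 1 ≤ H ^ 6 := one_le_pow₀ (by linarith)
  have h1 : (n1 : ℝ) ≤ Real.exp (2 * H ^ 6) := by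
    refine hn1.trans ?_
    rw [← Real.exp_nat_mul]
    apply Real.exp_le_exp.2
    push_cast
    have h2 : (D : ℝ) ^ 2 ≤ H ^ 2 := pow_le_pow_left₀ (Nat.cast_nonneg _) hD 2
    have h3 : (D : ℝ) ^ 2 + 1 ≤ H ^ 3 := by nlinarith [sq_nonneg (H - 2)]
    have h4 : 0 ≤ H ^ 3 := by positivity
    calc ((D : ℝ) ^ 2 + 1) * (2 * H ^ 3) ≤ H ^ 3 * (2 * H ^ 3) :=
          mul_le_mul_of_nonneg_right h3 (by positivity)
      _ = 2 * H ^ 6 := by ring
  have hd1 : 1 ≤ 1 / δ := by rwa [le_div_iff₀ hδ, one_mul]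
  have hd0 : 0 < 1 / δ := by positivity
  have h5 : w ^ p ≤ Real.exp (H ^ 6) * (1 / δ) ^ H := by
    have hb1 : 1 ≤ 8 * H ^ 2 / δ := by
      rw [le_div_iff₀ hδ]
      nlinarith
    calc w ^ p ≤ (8 * H ^ 2 / δ) ^ p := pow_le_pow_left₀ hw0 hw p
      _ = (8 * H ^ 2 / δ) ^ (p : ℝ) := (Real.rpow_natCast _ _).symm
      _ ≤ (8 * H ^ 2 / δ) ^ H := by
          apply Real.rpow_le_rpow_of_exponent_le hb1
          exact (by exact_mod_cast hp : (p : ℝ) ≤ D).trans hD
      _ = (8 * H ^ 2) ^ H * (1 / δ) ^ H := by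
          rw [← Real.mul_rpow (by positivity) (by positivity)]
          congr 1
          ring
      _ ≤ Real.exp (H ^ 6) * (1 / δ) ^ H := by
          refine mul_le_mul_of_nonneg_right ?_ (by positivity)
          calc (8 * H ^ 2) ^ H ≤ (Real.exp (8 * H ^ 2)) ^ H := by
                apply Real.rpow_le_rpow (by positivity) _ (by linarith)
                linarith [Real.add_one_le_exp (8 * H ^ 2)]
            _ = Real.exp (8 * H ^ 2 * H) := by rw [← Real.exp_mul]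
            _ ≤ Real.exp (H ^ 6) := by
                apply Real.exp_le_exp.2
                have h6 : 8 ≤ H ^ 3 := by nlinarith [sq_nonneg (H - 2)]
                calc 8 * H ^ 2 * H = 8 * H ^ 3 := by ring
                  _ ≤ H ^ 3 * H ^ 3 := mul_le_mul_of_nonneg_right h6 (by positivity)
                  _ = H ^ 6 := by ring
  have h7 : r ≤ Real.exp (H ^ 6) * (1 / δ) := by
    refine hr.trans ?_
    have h8 : 2 ≤ Real.exp (H ^ 6) := by
      linarith [Real.add_one_le_exp (H ^ 6)]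
    calc 2 / δ = 2 * (1 / δ) := by ring
      _ ≤ _ := mul_le_mul_of_nonneg_right h8 hd0.le
  calc (n1 : ℝ) * (r * w ^ p) ≤ Real.exp (2 * H ^ 6) *
        ((Real.exp (H ^ 6) * (1 / δ)) * (Real.exp (H ^ 6) * (1 / δ) ^ H)) := by
          apply mul_le_mul h1 _ (by positivity) (by positivity)
          exact mul_le_mul h7 h5 (by positivity) (by positivity)
    _ = Real.exp (4 * H ^ 6) * ((1 / δ) ^ (1 + H)) := by
          rw [Real.rpow_add hd0, Real.rpow_one]
          have : Real.exp (4 * H ^ 6) = Real.exp (2 * H ^ 6) * Real.exp (H ^ 6) * Real.exp (H ^ 6) := by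
            rw [← Real.exp_add, ← Real.exp_add]
            congr 1
            ring
          rw [this]
          ring
    _ ≤ Real.exp (4 * H ^ 6) * (1 / δ) ^ (2 * H) := by
          refine mul_le_mul_of_nonneg_left ?_ (by positivity)
          exact Real.rpow_le_rpow_of_exponent_le hd1 (by linarith)

theorem toNat_cast (z : ℤ) (hz : 0 ≤ z) : ((z.toNat : ℕ) : ℝ) = (z : ℝ) := by
  exact_mod_cast congrArg (Int.cast : ℤ → ℝ) (Int.toNat_of_nonneg hz)

theorem floor_close (δ x y : ℝ) (hδ : 0 < δ) (h : ⌊x / δ⌋ = ⌊y / δ⌋) : |x - y| ≤ δ := by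
  have h1 := Int.abs_sub_lt_one_of_floor_eq_floor h
  have h2 : x / δ - y / δ = (x - y) / δ := by ring
  rw [h2, abs_div, abs_of_pos hδ, div_lt_one hδ] at h1
  exact h1.le

theorem stmt_PIG (hmin : Stmt_Min) (hcnt : Stmt_Cnt) : Stmt_Pig := by
  classical
  refine ⟨4, by norm_num, ?_⟩
  intro K _ _ 𝔠 k T y δ H h𝔠 hT hδ hδ1 hD hH hdisc hN hy
  choose η 𝔟 hη0 h𝔟0 hspan hnorm hv using
    pig_step hmin K 𝔠 k T y H h𝔠 hT hD hH hdisc hN hy
  set m : ℕ := ⌊Real.exp (2 * H ^ 3)⌋₊ with hmdef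
  have hm : 1 ≤ m := by
    rw [hmdef, Nat.one_le_floor_iff]
    exact Real.one_le_exp (by positivity)
  obtain ⟨hfin, hcard⟩ := hcnt K m hm
  set SI : Finset (Ideal (𝓞 K)) := hfin.toFinset with hSIdef
  have hSIc : SI.card ≤ m ^ (Module.finrank ℚ K ^ 2 + 1) := by
    rwa [Set.ncard_eq_toFinset_card _ hfin] at hcard
  have hmR : (m : ℝ) ≤ Real.exp (2 * H ^ 3) := Nat.floor_le (by positivity)
  have hSIr : (SI.card : ℝ) ≤ Real.exp (2 * H ^ 3) ^ (Module.finrank ℚ K ^ 2 + 1) := by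
    calc (SI.card : ℝ) ≤ ((m ^ (Module.finrank ℚ K ^ 2 + 1) : ℕ) : ℝ) := by exact_mod_cast hSIc
      _ = (m : ℝ) ^ (Module.finrank ℚ K ^ 2 + 1) := by push_cast; rfl
      _ ≤ _ := pow_le_pow_left₀ (Nat.cast_nonneg _) hmR _
  have hT0 : (0 : ℝ) < T := by exact_mod_cast hT
  set fr : ℕ → ℝ := fun t => (t : ℝ) * k / T - (t * k / T : ℕ) with hfr
  have hfr0 : ∀ t, 0 ≤ fr t := by
    intro t
    have := Nat.cast_div_le (α := ℝ) (m := t * k) (n := T)
    simp only [hfr]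
    push_cast at this
    linarith
  have hfr1 : ∀ t, fr t ≤ 1 := by
    intro t
    have h1 : t * k < T * (t * k / T + 1) := Nat.lt_mul_div_succ _ (by omega)
    have h2 : (t : ℝ) * k < T * ((t * k / T : ℕ) + 1) := by exact_mod_cast h1
    have h3 : (t : ℝ) * k / T < (t * k / T : ℕ) + 1 := by
      rw [div_lt_iff₀ hT0]
      linarith
    simp only [hfr]
    linarith
  set a : ℕ → InfinitePlace K → ℝ := fun t v => Real.log (v (η t : K)) - t / T * y v with ha
  set W : ℤ := ⌊3 * H ^ 2 / δ⌋ with hW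
  set R : ℤ := ⌊1 / δ⌋ with hR
  have hW0 : 0 ≤ W := Int.floor_nonneg.2 (by positivity)
  have hR0 : 0 ≤ R := Int.floor_nonneg.2 (by positivity)
  set tgt : Finset (Ideal (𝓞 K) × ℤ × (InfinitePlace K → ℤ)) :=
    SI ×ˢ (Icc (0 : ℤ) R) ×ˢ Fintype.piFinset (fun _ : InfinitePlace K => Icc (-(W + 1)) W) with htgt
  set F : ℕ → Ideal (𝓞 K) × ℤ × (InfinitePlace K → ℤ) :=
    fun t => (𝔟 t, ⌊fr t / δ⌋, fun v => ⌊a t v / δ⌋) with hFdef
  have hF : ∀ t, F t ∈ tgt := by
    intro t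
    rw [htgt, Finset.mem_product, Finset.mem_product, Fintype.mem_piFinset]
    refine ⟨?_, ?_, ?_⟩
    · rw [hSIdef, Set.Finite.mem_toFinset]
      refine ⟨h𝔟0 t, ?_⟩
      exact Nat.le_floor (hnorm t)
    · simp only [hFdef, Finset.mem_Icc]
      constructor
      · exact Int.floor_nonneg.2 (div_nonneg (hfr0 t) hδ.le)
      · exact Int.floor_le_floor (div_le_div_of_nonneg_right (hfr1 t) hδ.le)
    · intro v
      simp only [hFdef, Finset.mem_Icc]
      have h1 := abs_le.1 (hv t v)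
      constructor
      · rw [Int.le_floor]
        have h2 : (3 * H ^ 2 / δ) < W + 1 := Int.lt_floor_add_one _
        have h3 : -(3 * H ^ 2 / δ) ≤ a t v / δ := by
          rw [← neg_div]
          exact div_le_div_of_nonneg_right h1.1 hδ.le
        push_cast
        linarith
      · exact Int.floor_le_floor (div_le_div_of_nonneg_right h1.2 hδ.le)
  have hcardt : (tgt.card : ℝ) ≤ Real.exp (4 * H ^ 6) * (1 / δ) ^ (2 * H) := by
    have h1 : (tgt.card : ℝ) = (SI.card : ℝ) * (((R : ℝ) + 1) *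
        (2 * (W : ℝ) + 2) ^ (Fintype.card (InfinitePlace K))) := by
      rw [htgt, Finset.card_product, Finset.card_product, Fintype.card_piFinset, Finset.prod_const,
        Finset.card_univ, Int.card_Icc, Int.card_Icc]
      have h2 : ((R + 1 - 0).toNat : ℝ) = (R : ℝ) + 1 := by
        rw [toNat_cast _ (by omega)]
        push_cast
        ring
      have h4 : ((W + 1 - -(W + 1)).toNat : ℝ) = 2 * (W : ℝ) + 2 := by
        rw [toNat_cast _ (by omega)]
        push_cast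
        ring
      push_cast
      rw [h2, h4]
    rw [h1]
    have hWr : (W : ℝ) ≤ 3 * H ^ 2 / δ := Int.floor_le _
    have hRr : (R : ℝ) ≤ 1 / δ := Int.floor_le _
    have hd1 : 1 ≤ 1 / δ := by rwa [le_div_iff₀ hδ, one_mul]
    have hW0' : (0 : ℝ) ≤ W := by exact_mod_cast hW0
    have hR0' : (0 : ℝ) ≤ R := by exact_mod_cast hR0
    refine pig_card SI.card (Fintype.card (InfinitePlace K)) (Module.finrank ℚ K) _ _ δ H hδ hδ1 hH
      hD (card_places K) hSIr (by linarith) ?_ (by linarith) ?_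
    · calc (R : ℝ) + 1 ≤ 1 / δ + 1 / δ := by linarith
        _ = 2 / δ := by ring
    · have h6 : 2 ≤ 2 * H ^ 2 / δ := by
        rw [le_div_iff₀ hδ]
        nlinarith
      calc 2 * (W : ℝ) + 2 ≤ 2 * (3 * H ^ 2 / δ) + 2 * H ^ 2 / δ := by linarith
        _ = 8 * H ^ 2 / δ := by ring
  -- pigeonhole
  have hph : ∃ t t' : ℕ, t < t' ∧ t' ≤ tgt.card ∧ F t = F t' := by
    obtain ⟨t, ht, t', ht', hne, heq⟩ :=
      Finset.exists_ne_map_eq_of_card_lt_of_maps_to (s := range (tgt.card + 1)) (t := tgt) (f := F)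
        (by rw [Finset.card_range]; omega) (fun t _ => hF t)
    rw [Finset.mem_range] at ht ht'
    rcases lt_or_gt_of_ne hne with h | h
    · exact ⟨t, t', h, by omega, heq⟩
    · exact ⟨t', t, h, by omega, heq.symm⟩
  obtain ⟨t, t', htt, ht', heq⟩ := hph
  have e1 : 𝔟 t = 𝔟 t' := congrArg Prod.fst heq
  have e2 : ⌊fr t / δ⌋ = ⌊fr t' / δ⌋ := congrArg (fun z => z.2.1) heq
  have e3 : ∀ v, ⌊a t v / δ⌋ = ⌊a t' v / δ⌋ := fun v => congrFun (congrArg (fun z => z.2.2) heq) v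
  have hjj : t * k / T ≤ t' * k / T := Nat.div_le_div_right (Nat.mul_le_mul_right _ htt.le)
  obtain ⟨ξ, hξ0, hξs, hξv⟩ := pig_div K 𝔠 (𝔟 t) (t * k / T) (t' * k / T) (η t) (η t') h𝔠 hjj
    (hη0 t) (hη0 t') (hspan t) (by rw [e1]; exact hspan t')
  refine ⟨t' - t, t' * k / T - t * k / T, ξ, by omega, ?_, hξ0, hξs, ?_, ?_⟩
  · refine le_trans ?_ hcardt
    exact_mod_cast (by omega : t' - t ≤ tgt.card)
  · have h1 := floor_close δ _ _ hδ e2
    rw [Nat.cast_sub hjj, Nat.cast_sub htt.le]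
    have h2 : ((t' * k / T : ℕ) : ℝ) - ((t * k / T : ℕ) : ℝ) - ((t' : ℝ) - t) * k / T =
        fr t - fr t' := by
      simp only [hfr]
      ring
    rw [h2]
    exact h1
  · intro v
    have h1 := floor_close δ _ _ hδ (e3 v)
    rw [hξv v, Nat.cast_sub htt.le]
    have h2 : Real.log (v (η t' : K)) - Real.log (v (η t : K)) - ((t' : ℝ) - t) / T * y v =
        a t' v - a t v := by
      simp only [ha]
      ring
    rw [h2, abs_sub_comm]
    exact h1

end Pool.Agent.Work.MP_2738db_nt_A.helper96
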