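import Pool.Agent.Work.MP_2738db_nt_A.Interface

set_option autoImplicit false

namespace Pool.Agent.Work.MP_2738db_nt_A.helper96

open Finset NumberField

theorem sum_card_Ioi (D : ℕ) : 2 * ∑ i : Fin D, (Ioi i).card ≤ D * D := by
  have h1 : ∑ i : Fin D, (Ioi i).card = ∑ i ∈ range D, (D - 1 - i) := by
    rw [Finset.sum_range]
    refine Finset.sum_congr rfl fun i _ => ?_
    rw [Fin.card_Ioi]
  rw [h1, Finset.sum_range_reflect (fun i => i) D, mul_comm, Finset.sum_range_id_mul_two]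
  exact Nat.mul_le_mul_left _ (Nat.sub_le _ _)

theorem discr_bound (K : Type) [Field K] [NumberField K] [inst : Algebra ℚ K]
    (pb : PowerBasis ℚ K) (θ : 𝓞 K) (hpb : pb.gen = (θ : K)) (B : ℝ) (hB : 1 ≤ B)
    (hθ : ∀ φ : K →+* ℂ, ‖φ (θ : K)‖ ≤ B) :
    Module.finrank ℚ K = pb.dim ∧ |(discr K : ℝ)| ≤ (2 * B) ^ (pb.dim * pb.dim) := by
  classical
  have hinst : inst = DivisionRing.toRatAlgebra := Subsingleton.elim _ _
  subst hinst
  refine ⟨pb.finrank, ?_⟩
  have hcard : Fintype.card (Fin pb.dim) = Fintype.card (K →ₐ[ℚ] ℂ) := by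
    rw [AlgHom.card ℚ K ℂ, pb.finrank, Fintype.card_fin]
  let e : Fin pb.dim ≃ (K →ₐ[ℚ] ℂ) := Fintype.equivOfCardEq hcard
  have h1 : ‖algebraMap ℚ ℂ (Algebra.discr ℚ pb.basis)‖ ≤ (2 * B) ^ (pb.dim * pb.dim) := by
    rw [Algebra.discr_powerBasis_eq_prod ℚ ℂ pb e]
    have h2 : ∀ i j : Fin pb.dim, ‖(e j pb.gen - e i pb.gen) ^ 2‖ ≤ (2 * B) ^ 2 := by
      intro i j
      rw [norm_pow]
      refine pow_le_pow_left₀ (norm_nonneg _) ?_ 2
      refine (norm_sub_le _ _).trans ?_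
      have h3 := hθ (e j : K →+* ℂ)
      have h4 := hθ (e i : K →+* ℂ)
      rw [hpb]
      have h5 : (e j) (θ : K) = (e j : K →+* ℂ) (θ : K) := rfl
      have h6 : (e i) (θ : K) = (e i : K →+* ℂ) (θ : K) := rfl
      rw [h5, h6]
      linarith
    rw [norm_prod]
    have h3 : ∀ i : Fin pb.dim, ‖∏ j ∈ Ioi i, (e j pb.gen - e i pb.gen) ^ 2‖
        ≤ (2 * B) ^ (2 * (Ioi i).card) := by
      intro i
      rw [norm_prod, pow_mul, ← Finset.prod_const]
      exact Finset.prod_le_prod (fun _ _ => norm_nonneg _) fun j _ => h2 i j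
    calc ∏ i : Fin pb.dim, ‖∏ j ∈ Ioi i, (e j pb.gen - e i pb.gen) ^ 2‖
        ≤ ∏ i : Fin pb.dim, (2 * B) ^ (2 * (Ioi i).card) :=
          Finset.prod_le_prod (fun _ _ => norm_nonneg _) fun i _ => h3 i
      _ = (2 * B) ^ (2 * ∑ i : Fin pb.dim, (Ioi i).card) := by
          rw [Finset.prod_pow_eq_pow_sum, Finset.mul_sum]
      _ ≤ (2 * B) ^ (pb.dim * pb.dim) :=
          pow_le_pow_right₀ (by linarith) (sum_card_Ioi pb.dim)
  -- comparison with the discriminant
  let b := RingOfIntegers.basis K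
  have hι : Fintype.card (Module.Free.ChooseBasisIndex ℤ (𝓞 K)) = Fintype.card (Fin pb.dim) := by
    rw [Fintype.card_fin, ← pb.finrank, ← Module.finrank_eq_card_basis (integralBasis K)]
  let f : Fin pb.dim ≃ Module.Free.ChooseBasisIndex ℤ (𝓞 K) :=
    (Fintype.equivOfCardEq hι).symm
  let v : Module.Free.ChooseBasisIndex ℤ (𝓞 K) → 𝓞 K := fun i => θ ^ ((f.symm i : Fin pb.dim) : ℕ)
  have hv : (fun i => ((v i : 𝓞 K) : K)) = (pb.basis ∘ ⇑f.symm) := by
    funext i
    simp [v, hpb]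
  have h4 : Algebra.discr ℚ (fun i => ((v i : 𝓞 K) : K)) = Algebra.discr ℚ pb.basis := by
    rw [hv, Algebra.discr_reindex]
  have hmul := b.toMatrix_map_vecMul v
  have h6 : Matrix.vecMul (⇑(integralBasis K))
      (((b.toMatrix v).map (Int.cast : ℤ → ℚ)).map (algebraMap ℚ K)) = fun i => ((v i : 𝓞 K) : K) := by
    funext i
    have h7 := congrFun hmul i
    rw [← h7]
    simp [Matrix.vecMul, dotProduct, b, integralBasis_apply]
  have h8 : Algebra.discr ℚ (fun i => ((v i : 𝓞 K) : K)) = (((b.toMatrix v).det : ℤ) : ℚ) ^ 2 * (discr K : ℚ) := by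
    rw [← h6, Algebra.discr_of_matrix_vecMul, ← coe_discr]
    congr 2
    exact (RingHom.map_det (Int.castRingHom ℚ) (b.toMatrix v)).symm
  have h9 : (((b.toMatrix v).det : ℤ) : ℚ) ≠ 0 := by
    intro h0
    rw [h4, h0] at h8
    have := Algebra.discr_not_zero_of_basis ℚ pb.basis
    exact this (by rw [h8]; ring)
  have h10 : (1 : ℝ) ≤ (((b.toMatrix v).det : ℤ) : ℝ) ^ 2 := by
    have : (b.toMatrix v).det ≠ 0 := by exact_mod_cast h9
    have h11 : (1 : ℤ) ≤ (b.toMatrix v).det ^ 2 := by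
      have := sq_nonneg (b.toMatrix v).det
      have h12 : (b.toMatrix v).det ^ 2 ≠ 0 := pow_ne_zero 2 ‹_›
      omega
    exact_mod_cast h11
  have h13 : ‖algebraMap ℚ ℂ (Algebra.discr ℚ pb.basis)‖ =
      (((b.toMatrix v).det : ℤ) : ℝ) ^ 2 * |(discr K : ℝ)| := by
    rw [← h4, h8]
    simp
  rw [h13] at h1
  refine le_trans ?_ h1
  nlinarith [abs_nonneg (discr K : ℝ)]

theorem stmt_FLD : Stmt_Fld := by
  intro l b r hl hb hr
  have hl0 : (l : ℝ) ≠ 0 := by positivity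
  have hb0 : (0 : ℝ) < b := by positivity
  set x : ℝ := (b : ℝ) ^ ((r : ℝ) / l) with hx
  have hx0 : 0 < x := Real.rpow_pos_of_pos hb0 _
  have hxl : x ^ l = (b : ℝ) ^ r := by
    rw [hx, ← Real.rpow_natCast, ← Real.rpow_mul hb0.le, div_mul_cancel₀ _ hl0, Real.rpow_natCast]
  have hintZ : IsIntegral ℤ x := by
    refine IsIntegral.of_pow (n := l) (by omega) ?_
    rw [hxl]
    have : ((b : ℝ) ^ r) = algebraMap ℤ ℝ ((b : ℤ) ^ r) := by simp
    rw [this]
    exact isIntegral_algebraMap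
  have hintQ : IsIntegral ℚ x := hintZ.tower_top
  let K : Type := IntermediateField.adjoin ℚ {x}
  let pb : PowerBasis ℚ K := IntermediateField.adjoin.powerBasis hintQ
  have hfin : @Module.Finite ℚ K _ _ _ := pb.finite
  have hNF : NumberField K :=
    { to_charZero := inferInstance
      to_finiteDimensional := by convert hfin }
  have hgen : pb.gen = IntermediateField.AdjoinSimple.gen ℚ x :=
    IntermediateField.adjoin.powerBasis_gen hintQ
  have hgl : (pb.gen : K) ^ l = (b : K) ^ r := by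
    rw [hgen]
    apply (IntermediateField.adjoin ℚ {x}).val.toRingHom.injective
    rw [map_pow, map_pow, map_natCast]
    exact hxl
  have hgint : IsIntegral ℤ (pb.gen : K) := by
    refine IsIntegral.of_pow (n := l) (by omega) ?_
    rw [hgl]
    have : ((b : K) ^ r) = algebraMap ℤ K ((b : ℤ) ^ r) := by simp
    rw [this]
    exact isIntegral_algebraMap
  let θ : 𝓞 K := ⟨pb.gen, hgint⟩
  have hθ : (θ : K) = pb.gen := rfl
  have hbound : ∀ φ : K →+* ℂ, ‖φ (θ : K)‖ ≤ (b : ℝ) := by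
    intro φ
    have h1 : φ (θ : K) ^ l = (b : ℂ) ^ r := by
      rw [← map_pow, hθ, hgl]
      simp
    have h2 : ‖φ (θ : K)‖ ^ l = (b : ℝ) ^ r := by
      rw [← norm_pow, h1]
      simp
    have h3 : ‖φ (θ : K)‖ ^ l ≤ (b : ℝ) ^ l := by
      rw [h2]
      exact pow_le_pow_right₀ (by exact_mod_cast (by omega : 1 ≤ b)) hr.le
    exact le_of_pow_le_pow_left₀ (by omega) hb0.le h3
  obtain ⟨h4, h5⟩ := discr_bound K pb θ hθ.symm (b : ℝ) (by exact_mod_cast (by omega : 1 ≤ b)) hbound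
  have hdim : pb.dim ≤ l := by
    have h6 : pb.dim = (minpoly ℚ x).natDegree := IntermediateField.adjoin.powerBasis_dim hintQ
    rw [h6]
    have h7 : minpoly ℚ x ∣ (Polynomial.X ^ l - Polynomial.C ((b : ℚ) ^ r)) := by
      apply minpoly.dvd
      simp [hxl]
    have h8 := Polynomial.natDegree_le_of_dvd h7 (Polynomial.X_pow_sub_C_ne_zero (by omega) _)
    rwa [Polynomial.natDegree_X_pow_sub_C] at h8
  refine ⟨K, inferInstance, hNF, θ, (IntermediateField.adjoin ℚ {x}).val.toRingHom, ?_, ?_, ?_, ?_⟩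
  · apply RingOfIntegers.ext
    simp [hθ, hgl]
  · rw [hθ, hgen]
    exact hx0
  · rw [h4]; exact hdim
  · have h9 : 0 < |(discr K : ℝ)| := by
      rw [abs_pos]
      exact_mod_cast discr_ne_zero K
    have h10 := Real.log_le_log h9 h5
    rw [Real.log_pow, Real.log_mul (by norm_num) hb0.ne'] at h10
    refine h10.trans ?_
    have h11 : Real.log 2 ≤ 1 := by linarith [Real.log_two_lt_d9]
    have h12 : 0 ≤ Real.log (b : ℝ) := Real.log_natCast_nonneg b
    have h13 : ((pb.dim * pb.dim : ℕ) : ℝ) ≤ (l : ℝ) ^ 2 := by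
      push_cast
      have : (pb.dim : ℝ) ≤ l := by exact_mod_cast hdim
      nlinarith [Nat.cast_nonneg (α := ℝ) pb.dim]
    have h14 : 0 ≤ Real.log 2 := Real.log_nonneg (by norm_num)
    exact mul_le_mul h13 (by linarith) (by linarith) (by positivity)

end Pool.Agent.Work.MP_2738db_nt_A.helper96
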